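import Mathlib
import Pool.Agent.Hhelper71.Small.FinalLin

/-!
Every small hereditary graph class has linear neighbourhood complexity, bounded symmetric
difference, and adjacency labels of `O(log ^ 2 n)` bits.

The classes are presented as in the frozen statements of this problem: `C n` is the set of the
labelled graphs of the class on the vertex set `Fin n`.
-/

set_option autoImplicit false

namespace Pool.Agent.Hhelper71.Small.Withdrawn.LogSquareLabels

/-- Let `C` be a hereditary class with at most `n! * c ^ n` labelled graphs on `n` vertices.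
* There are `K` and one decoder `D` (the same for all `n`) such that every graph of the class with
  `n` vertices has pairwise distinct labels of exactly `K * (log2 n + 1) ^ 2` bits from which `D`
  reads adjacency.
* There is `R` such that in every graph of the class, every nonempty vertex set `Z` has at most
  `R * |Z|` distinct traces `N(v) ∩ Z`.
* There is `s` such that every vertex set `Y` of a graph of the class has a subset `P` of at most
  half its size (rounded up) such that every vertex of `Y` agrees with some vertex of `P` on all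
  but at most `s` vertices of `Y`. -/
theorem result (C : (n : ℕ) → Set (SimpleGraph (Fin n)))
    (hered : ∀ (n m : ℕ) (e : Fin m ↪ Fin n) (G : SimpleGraph (Fin n)),
      G ∈ C n → G.comap ⇑e ∈ C m)
    (small : ∃ c : ℕ, ∀ n : ℕ, (C n).ncard ≤ n.factorial * c ^ n) :
    (∃ (K : ℕ) (D : List Bool → List Bool → Prop), ∀ (n : ℕ), ∀ G ∈ C n,
      ∃ ℓ : Fin n → List Bool, Function.Injective ℓ ∧
        (∀ v, (ℓ v).length = K * (Nat.log 2 n + 1) ^ 2) ∧
        ∀ u v, G.Adj u v ↔ D (ℓ u) (ℓ v)) ∧
    (∃ R : ℕ, ∀ (n : ℕ), ∀ G ∈ C n, ∀ Z : Finset (Fin n), Z.Nonempty →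
      (Set.range fun v => G.neighborSet v ∩ (Z : Set (Fin n))).ncard ≤ R * Z.card) ∧
    (∃ s : ℕ, ∀ (n : ℕ), ∀ G ∈ C n, ∀ Y : Finset (Fin n), ∃ P ⊆ Y,
      P.card ≤ (Y.card + 1) / 2 ∧ ∀ a ∈ Y, ∃ b ∈ P,
        {z | z ∈ Y ∧ ¬ (G.Adj a z ↔ G.Adj b z)}.ncard ≤ s) :=
  ⟨Pool.Agent.Hhelper71.Small.log_sq_labels C hered small,
    Pool.Agent.Hhelper71.Small.traces_linear C hered small,
    Pool.Agent.Hhelper71.Small.near_twins C hered small⟩

end Pool.Agent.Hhelper71.Small.Withdrawn.LogSquareLabels
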