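import Mathlib
import Pool.Agent.Hhelper71.Small.Sparse

/-!
Small hereditary graph classes without large complete bipartite subgraphs have bounded degeneracy
and adjacency labels of `O(log n)` bits.

The classes are presented as in the frozen statements of this problem: `C n` is the set of the
labelled graphs of the class on the vertex set `Fin n`.
-/

set_option autoImplicit false

namespace Pool.Agent.Hhelper71.Small.Withdrawn.WeaklySparse

/-- Let `C` be a hereditary class with at most `n! * c ^ n` labelled graphs on `n` vertices, and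
suppose that for some `t` no graph of `C` has a complete bipartite subgraph with both sides of
size `t` or more. Then
* for some `d`, every nonempty vertex set `Y` of a graph of `C` has a vertex with at most `d`
  neighbours in `Y`;
* there are `K` and one decoder `D` (the same for all `n`) such that every graph of `C` with `n`
  vertices has pairwise distinct labels of exactly `K * (log2 n + 1)` bits from which `D` reads
  adjacency. -/
theorem result (C : (n : ℕ) → Set (SimpleGraph (Fin n)))
    (hered : ∀ (n m : ℕ) (e : Fin m ↪ Fin n) (G : SimpleGraph (Fin n)),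
      G ∈ C n → G.comap ⇑e ∈ C m)
    (small : ∃ c : ℕ, ∀ n : ℕ, (C n).ncard ≤ n.factorial * c ^ n)
    (sparse : ∃ t : ℕ, ∀ (n : ℕ), ∀ G ∈ C n, ∀ A B : Finset (Fin n),
      (∀ a ∈ A, ∀ b ∈ B, G.Adj a b) → A.card < t ∨ B.card < t) :
    (∃ d : ℕ, ∀ (n : ℕ), ∀ G ∈ C n, ∀ Y : Finset (Fin n), Y.Nonempty →
      ∃ y ∈ Y, {z | z ∈ Y ∧ G.Adj y z}.ncard ≤ d) ∧
    (∃ (K : ℕ) (D : List Bool → List Bool → Prop), ∀ (n : ℕ), ∀ G ∈ C n,
      ∃ ℓ : Fin n → List Bool, Function.Injective ℓ ∧
        (∀ v, (ℓ v).length = K * (Nat.log 2 n + 1)) ∧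
        ∀ u v, G.Adj u v ↔ D (ℓ u) (ℓ v)) := by
  obtain ⟨d, hd⟩ := Pool.Agent.Hhelper71.Small.sparse_degenerate C hered small sparse
  exact ⟨⟨d, hd⟩, Pool.Agent.Hhelper71.Small.degenerate_labels C d hd⟩

end Pool.Agent.Hhelper71.Small.Withdrawn.WeaklySparse
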